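import Pool.Agent.Y605.VS.NP

/-!
# Single-vehicle scheduling on a path with release and handling times is NP-complete

The reduction is from subset sum.  Read backwards in time, the release times are deadlines.  Jobs
with rapidly growing handling times and deadlines force the vehicle to make `n + 1` round trips from
the end of the path, the first to the other end and the others to places `W, 2 W, …, n W`.  The job
for the item `a_i` is at distance `a_i` behind the place `i W`, and it has to be processed during the
first round trip (which must not take too long) or during the round trip `i`, which costs a detour
of length `a_i`.  So the items processed during the first round trip have exactly the given sum.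
-/

set_option autoImplicit false

namespace Pool.Agent.Results.MP_6e49ee_lc.NPComplete

open Pool.Agent.NPC Pool.Agent.Y605.VS

/-- The single-vehicle scheduling problem on a path with release times and positive handling times
is NP-complete, and it is NP-hard already if the start vertex is an end of the path and the travel
times are symmetric and positive. -/
theorem result : (InNPP Sched ∧ NPHardP Sched) ∧
    NPHardP (fun I : Ins => (I.2.2.1 = 0 ∧ ∀ e ∈ I.2.1, e.1 = e.2 ∧ 0 < e.1) ∧ Sched I) :=
  ⟨⟨inNP_sched, npHard_sched⟩, npHard_nice⟩

end Pool.Agent.Results.MP_6e49ee_lc.NPComplete
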